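import Pool.Agent.SprP.Final

/-!
# Criteria of bounded degree for closures of Springer Schubert cells (MP_3a0658_ag)
-/

set_option autoImplicit false

open Pool.Agent.SprJ (jordan perm InClosure)
open Pool.Agent.SprP (Adm)

namespace Pool.Agent.Results.MP_3a0658_ag.BoundedDegree

/-- **Inequalities of bounded degree.** For all `D`, `k` there are
`n ≤ (1000 (D + 1) 8^(D+1) (k + 3))²`, `r` and fixed `v, w ∈ S_n` such that over every infinite field: if
`s` real polynomials of degree at most `D` in the entries of `X` are such that, for all strictly upper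
triangular `X` in Jordan form (up to the order of the basis) with `r` blocks of size `4` and with
`vB, wB ∈ S_X`, `vB` is in the closure of `C_w ∩ S_X` if and only if they are all nonnegative at `X`, then
`s ≥ 2^k`. -/
theorem result :
    ∀ D k : ℕ, ∃ (n r : ℕ) (v w : Equiv.Perm (Fin n)),
      n ≤ (1000 * (D + 1) * 8 ^ (D + 1) * (k + 3)) ^ 2 ∧
      ∀ (K : Type) [Field K] [Infinite K] (s : ℕ) (P : Fin s → MvPolynomial (Fin n × Fin n) ℝ),
        (∀ l, (P l).totalDegree ≤ D) →
        (∀ ε : Fin 4 × Fin r ≃ Fin n, Adm r v w (jordan K ε) →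
          (InClosure (jordan K ε) v w ↔
            ∀ l, 0 ≤ MvPolynomial.eval (fun p => jordan ℝ ε p.1 p.2) (P l))) →
        2 ^ k ≤ s :=
  Pool.Agent.SprP.final.2.2.1

end Pool.Agent.Results.MP_3a0658_ag.BoundedDegree
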