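import Pool.Agent.SprP.Final

/-!
# Universality of Springer Schubert cells, all Jordan blocks of size four (MP_3a0658_ag)

The closure problem for fixed `v`, `w` and nilpotent matrices `X` all of whose Jordan blocks have size
four, written entry by entry from the equations, contains the solvability of arbitrary systems of
polynomial equations.
-/

set_option autoImplicit false

open Pool.Agent.SprJ (jordan perm InClosure len)
open Pool.Agent.SprP (val XT GSolP Adm)

namespace Pool.Agent.Results.MP_3a0658_ag.JordanUniversality

/-- **Universality.** Let `N`, `M`, `g`, `one` and distinct `pr 0, …, pr (g - 1)` be given.  There are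
`n ≤ 7000 (N + M + 1)²`, `r`, permutations `v, w ∈ S_n` with `(w⁻¹ v)² = 1`, a matrix `T` with entries
`0`, `1` and letters `γ_0, …, γ_{g-1}`, each letter once, `T = 0` if `g = 0`, and for each system `G` of
`M` equations `x_i + x_j = x_k` or `x_i x_j = x_k` in `N` variables a bijection `ε G`, such that each
entry of the Jordan matrix of `ε G` depends on at most one equation of `G`, and such that for all `G`,
all infinite fields `K` and all `γ ∈ K^g` the matrix `X = J_{ε G} + T(γ)` is strictly upper triangular,
has only Jordan blocks of size `4`, `vB, wB ∈ S_X`, and `vB` lies in the closure of `C_w ∩ S_X` if and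
only if `G` has a solution with `x_one = 1` and `x_{pr l} = γ_l`.

Every system of integer polynomials with prescribed values of some variables is equivalent, over all
fields, to such a system `G` of linear size. -/
theorem result :
    (∀ (N M g : ℕ) (one : Fin N) (pr : Fin g → Fin N), Function.Injective pr →
      ∃ (n r : ℕ) (v w : Equiv.Perm (Fin n))
        (ε : (Fin M → Bool × Fin N × Fin N × Fin N) → (Fin 4 × Fin r ≃ Fin n))
        (T : Fin n → Fin n → Option (Option (Fin g))),
        n ≤ 7000 * (N + M + 1) ^ 2 ∧ (w⁻¹ * v) ^ 2 = 1 ∧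
        (∀ i j, ∃ S : Finset (Fin M), S.card ≤ 1 ∧ ∀ G G', (∀ m ∈ S, G m = G' m) →
          ∀ (K : Type) [Field K], jordan K (ε G) i j = jordan K (ε G') i j) ∧
        (g = 0 → ∀ i j, T i j = none) ∧
        (∀ l, ∃! p : Fin n × Fin n, T p.1 p.2 = some (some l)) ∧
        ∀ G (K : Type) [Field K] [Infinite K] (γ : Fin g → K),
          Adm r v w (XT K (ε G) T γ) ∧ (∀ i j, T i j ≠ none → jordan K (ε G) i j = 0) ∧
          (InClosure (XT K (ε G) T γ) v w ↔ GSolP K G one pr γ)) ∧
    (∀ (a b g : ℕ) (f : Fin b → MvPolynomial (Fin a) ℤ) (q : Fin g → Fin a),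
      Function.Injective q →
      ∃ (N M : ℕ) (G : Fin M → Bool × Fin N × Fin N × Fin N) (one : Fin N) (pr : Fin g → Fin N),
        Function.Injective pr ∧ N + M + 1 ≤ 12 * (1 + g + ∑ l, (1 + len (f l))) ∧
        ∀ (K : Type) [Field K] (γ : Fin g → K), GSolP K G one pr γ ↔
          ∃ x : Fin a → K, (∀ l, x (q l) = γ l) ∧ ∀ l, MvPolynomial.aeval x (f l) = 0) :=
  ⟨Pool.Agent.SprP.final.1, Pool.Agent.SprP.final.2.1⟩

end Pool.Agent.Results.MP_3a0658_ag.JordanUniversality
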