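import Pool.Agent.SprP.Final

/-!
# Degree lower bounds for criteria for closures of Springer Schubert cells (MP_3a0658_ag)
-/

set_option autoImplicit false

open Pool.Agent.SprJ (perm InClosure)
open Pool.Agent.SprP (Adm)

namespace Pool.Agent.Results.MP_3a0658_ag.SignsAndRanks

/-- **Degree lower bound for ranks and signs.** For all `k` there are `n ≤ 28000 (2 k + 3)²`, `r` and
fixed `v, w ∈ S_n` such that
* there are complex strictly upper triangular `X`, `X'` with all Jordan blocks of size `4`, `vB, wB` in
  `S_X` and in `S_X'`, `vB` in the closure of `C_w ∩ S_X` but not in that of `C_w ∩ S_X'`, although all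
  matrices with `s` rows whose entries are rational polynomials of degree at most `d` in the entries of
  the given matrix have the same rank at `X` and `X'`, if `s d < 2^k`;
* if `m` real polynomials of degree at most `D` in the entries decide the question for all real strictly
  upper triangular `X` with all Jordan blocks of size `4` and `vB, wB ∈ S_X` through their signs
  (negative, zero, positive) at `X`, then `m D ≥ 2^k`. -/
theorem result :
    ∀ k : ℕ, ∃ (n r : ℕ) (v w : Equiv.Perm (Fin n)), n ≤ 28000 * (2 * k + 3) ^ 2 ∧
      (∃ X X' : Matrix (Fin n) (Fin n) ℂ, Adm r v w X ∧ Adm r v w X' ∧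
        InClosure X v w ∧ ¬ InClosure X' v w ∧
        ∀ (s t d : ℕ) (M : Matrix (Fin s) (Fin t) (MvPolynomial (Fin n × Fin n) ℚ)),
          (∀ i j, (M i j).totalDegree ≤ d) → s * d < 2 ^ k →
          (M.map (MvPolynomial.aeval fun p => X p.1 p.2)).rank
            = (M.map (MvPolynomial.aeval fun p => X' p.1 p.2)).rank) ∧
      (∀ (m D : ℕ) (P : Fin m → MvPolynomial (Fin n × Fin n) ℝ), (∀ l, (P l).totalDegree ≤ D) →
        (∀ X X' : Matrix (Fin n) (Fin n) ℝ, Adm r v w (X.map Complex.ofReal) →
          Adm r v w (X'.map Complex.ofReal) →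
          (∀ l, SignType.sign (MvPolynomial.eval (fun p => X p.1 p.2) (P l)) =
            SignType.sign (MvPolynomial.eval (fun p => X' p.1 p.2) (P l))) →
          (InClosure (X.map Complex.ofReal) v w ↔ InClosure (X'.map Complex.ofReal) v w)) →
        2 ^ k ≤ m * D) :=
  Pool.Agent.SprP.final.2.2.2

end Pool.Agent.Results.MP_3a0658_ag.SignsAndRanks
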