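import Pool.Agent.SprH.All

/-!
# Springer Schubert cells of nilpotent matrices with torus-stable Springer fibre (MP_3a0658_ag)
-/

set_option autoImplicit false

open Matrix
open Pool.Agent.SprJ (Borel perm InClosure)
open Pool.Agent.SprH (TStable Hook Crit)

namespace Pool.Agent.Results.MP_3a0658_ag.TorusStableFibres

/-- Let `K` be an infinite field and `X` a nilpotent `n × n` matrix, `n > 0`. (A) The Springer fibre `S_X` is stable under the
diagonal torus if and only if `Hook X e` for some `e`. (B) Let `Hook X e`. For all `v, w` the point `vB` is in the closure of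
`C_w ∩ S_X` if and only if there are cuts `c` with `Crit e v w c`, a condition in terms of the Gale order; the same for
`u X u⁻¹` with `u ∈ B ∩ v B v⁻¹`. -/
theorem result : ∀ (K : Type) [Field K] [Infinite K] (n : ℕ), 0 < n →
    ∀ X : Matrix (Fin n) (Fin n) K, IsNilpotent X →
    (TStable X ↔ ∃ (m : ℕ) (e : Fin m → Fin n), Hook X e) ∧
    ∀ (m : ℕ) (e : Fin m → Fin n), Hook X e → ∀ (v w : Equiv.Perm (Fin n))
      (u : Matrix (Fin n) (Fin n) K), Borel u → Borel ((perm K v)⁻¹ * u * perm K v) →
      (InClosure (u * X * u⁻¹) v w ↔ ∃ c : ℕ → ℕ, Crit e v w c) :=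
  Pool.Agent.SprH.a_FIN

end Pool.Agent.Results.MP_3a0658_ag.TorusStableFibres
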